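import Pool.Agent.Helper81.LT.Mod

/-! Packet BETA of MP_c20641_lc: the beta function for standard sequences. -/

namespace Pool.Agent.Helper85.LT

open Pool.Agent.Helper81.LT

variable {M : Type} [CommSemiring M]

theorem beta_up (b' I δ : M) :
    (1 + (I + δ) * (δ * b')) * (I ^ 2 * b' + 1 + I * (δ * b')) =
      1 + (1 + I * (δ * b')) * (I ^ 2 * b' + I * (δ * b') + (I + δ) * (δ * b')) := by
  ring

theorem beta_dn (b' J δ' : M) :
    (1 + J * ((δ' + 1) * b')) * ((J + δ' + 1) + b' * ((J + δ' + 1) ^ 2 * δ' + (J + δ' + 1)) +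
        (J + δ' + 1) ^ 2 * (δ' + 1) * b' ^ 2) =
      1 + (1 + (J + δ' + 1) * ((δ' + 1) * b')) * ((J + δ') + (J + δ' + 1) * (1 + δ' * J) * b' +
        (J + δ' + 1) * (δ' + 1) * J * b' ^ 2) := by
  ring

/-- Bezout for the moduli. -/
theorem bez (m : ℕ) (B : M) (i j : ℕ) (hi : i < m) (hj : j < m) (hij : j ≠ i) :
    ∃ f g : M, (1 + ((j : M) + 1) * ((m.factorial : M) * B)) * f =
      1 + (1 + ((i : M) + 1) * ((m.factorial : M) * B)) * g := by
  rcases lt_or_gt_of_ne hij with h | h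
  · obtain ⟨k, rfl⟩ : ∃ k, i = j + k + 1 := ⟨i - j - 1, by omega⟩
    obtain ⟨c, hc⟩ : (k + 1) ∣ m.factorial := Nat.dvd_factorial (by omega) (by omega)
    have hb : (m.factorial : M) * B = ((k : M) + 1) * ((c : M) * B) := by
      rw [hc]; push_cast; ring
    rw [hb]
    have h2 : ((j + k + 1 : ℕ) : M) + 1 = ((j : M) + 1) + k + 1 := by push_cast; ring
    rw [h2]
    exact ⟨_, _, beta_dn ((c : M) * B) ((j : M) + 1) (k : M)⟩
  · obtain ⟨k, rfl⟩ : ∃ k, j = i + k + 1 := ⟨j - i - 1, by omega⟩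
    obtain ⟨c, hc⟩ : (k + 1) ∣ m.factorial := Nat.dvd_factorial (by omega) (by omega)
    have hb : (m.factorial : M) * B = ((k : M) + 1) * ((c : M) * B) := by
      rw [hc]; push_cast; ring
    rw [hb]
    have h2 : ((i + k + 1 : ℕ) : M) + 1 = ((i : M) + 1) + ((k : M) + 1) := by push_cast; ring
    rw [h2]
    exact ⟨_, _, beta_up ((c : M) * B) ((i : M) + 1) ((k : M) + 1)⟩

theorem prod_form {ι : Type*} (s : Finset ι) (d : M) (h : ι → M)
    (hh : ∀ j ∈ s, ∃ g, h j = 1 + d * g) : ∃ u, ∏ j ∈ s, h j = 1 + d * u := by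
  classical
  induction s using Finset.induction_on with
  | empty => exact ⟨0, by simp⟩
  | insert a s ha ih =>
    obtain ⟨u, hu⟩ := ih fun j hj => hh j (Finset.mem_insert_of_mem hj)
    obtain ⟨g, hg⟩ := hh a (Finset.mem_insert_self a s)
    rw [Finset.prod_insert ha, hu, hg]
    exact ⟨g + u + d * g * u, by ring⟩

/-- BETA. -/
theorem beta : BETA := by
  classical
  intro M _ _ _ _ m x
  have h0 : ∀ y : M, 0 ≤ y := PAM.zero_le
  set B : M := 1 + ∑ i ∈ Finset.range m, x i with hB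
  set b : M := (m.factorial : M) * B with hb
  let d : ℕ → M := fun i => 1 + ((i : M) + 1) * b
  have hbez : ∀ i j, i < m → j < m → j ≠ i → ∃ f g : M, d j * f = 1 + d i * g :=
    fun i j hi hj hij => bez m B i j hi hj hij
  choose! f g hfg using hbez
  let e : ℕ → M := fun i => ∏ j ∈ (Finset.range m).erase i, d j * f i j
  have he : ∀ i < m, ∃ u, e i = 1 + d i * u := by
    intro i hi
    refine prod_form _ (d i) (fun j => d j * f i j) fun j hj => ?_
    rw [Finset.mem_erase, Finset.mem_range] at hj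
    exact ⟨g i j, hfg i j hi hj.2 hj.1⟩
  have hdvd : ∀ i < m, ∀ j < m, j ≠ i → ∃ w, e j = d i * w := by
    intro i hi j hj hji
    have h1 : d i * f j i ∣ e j :=
      Finset.dvd_prod_of_mem (fun k => d k * f j k)
        (Finset.mem_erase.2 ⟨hji.symm, Finset.mem_range.2 hi⟩)
    obtain ⟨w, hw⟩ := h1
    exact ⟨f j i * w, by rw [hw]; ring⟩
  refine ⟨∑ i ∈ Finset.range m, x i * e i, b, fun i hi => ⟨?_, ?_⟩⟩
  · -- the size
    have h1 : x i ≤ ∑ k ∈ Finset.range m, x k :=
      Finset.single_le_sum (fun k _ => h0 (x k)) (Finset.mem_range.2 hi)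
    have h2 : (1 : M) ≤ (m.factorial : M) := by
      have := Nat.one_le_cast (α := M).2 (Nat.succ_le_of_lt m.factorial_pos)
      exact this
    have h3 : B ≤ b := by
      calc B = 1 * B := (one_mul B).symm
        _ ≤ (m.factorial : M) * B := mul_le_mul_of_nonneg_right h2 (h0 B)
    have h4 : b ≤ ((i : M) + 1) * b := by
      calc b = 1 * b := (one_mul b).symm
        _ ≤ ((i : M) + 1) * b :=
          mul_le_mul_of_nonneg_right (le_add_of_nonneg_left (h0 (i : M))) (h0 b)
    have h5 : x i < B := by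
      rw [hB]
      calc x i ≤ ∑ k ∈ Finset.range m, x k := h1
        _ < 1 + ∑ k ∈ Finset.range m, x k := lt_add_of_pos_left _ one_pos
    calc x i < B := h5
      _ ≤ b := h3
      _ ≤ ((i : M) + 1) * b := h4
      _ ≤ 1 + ((i : M) + 1) * b := le_add_of_nonneg_left (h0 1)
  · -- the remainder
    obtain ⟨u, hu⟩ := he i hi
    have h1 : ∃ w, ∑ j ∈ (Finset.range m).erase i, x j * e j = d i * w := by
      have h2 : d i ∣ ∑ j ∈ (Finset.range m).erase i, x j * e j := by
        refine Finset.dvd_sum fun j hj => ?_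
        rw [Finset.mem_erase, Finset.mem_range] at hj
        obtain ⟨w, hw⟩ := hdvd i hi j hj.2 hj.1
        exact ⟨x j * w, by rw [hw]; ring⟩
      exact h2
    obtain ⟨w, hw⟩ := h1
    refine ⟨x i * u + w, ?_⟩
    rw [← Finset.add_sum_erase _ _ (Finset.mem_range.2 hi), hw, hu]
    change x i * (1 + d i * u) + d i * w = (x i * u + w) * d i + x i
    ring

end Pool.Agent.Helper85.LT
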