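import Pool.Agent.Helper81.LT.Inc

/-! Packet SGCL of MP_c20641_lc: closure properties of the class `Sg`. -/

namespace Pool.Agent.Helper85.LT

open FirstOrder Language Pool.Agent.Helper81.LT

theorem term_sub {M : Type} [LA.Structure M] (I : LA.Substructure M) {α : Type}
    (t : LA.Term α) (v : α → I) :
    ((t.realize v : I) : M) = t.realize (fun a => (v a : M)) :=
  (HomClass.realize_term I.subtype (t := t) (v := v)).symm

/-- the relation symbol -/
def ltR : LA.Relations 2 := ARel.lt

/-- the atomic formula -/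
def ltA {α : Type} (t s : LA.Term α) : LA.Formula α := ltR.formula₂ t s

theorem realize_ltA {M : Type} [LA.Structure M] {α : Type} (t s : LA.Term α) (v : α → M) :
    (ltA t s).Realize v ↔ Lt M (t.realize v) (s.realize v) := by
  rw [ltA, Formula.realize_rel₂]
  exact Iff.rfl

theorem rel_sub {M : Type} [LA.Structure M] (I : LA.Substructure M) (x y : I) :
    Lt I x y ↔ Lt M (x : M) (y : M) := by
  have h : (fun i => ((![x, y] : Fin 2 → I) i : M)) = ![(x : M), (y : M)] := by
    funext i
    fin_cases i <;> rfl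
  have h2 : Lt I x y ↔ Structure.RelMap (L := LA) (ARel.lt : LA.Relations 2)
        (fun i => ((![x, y] : Fin 2 → I) i : M)) := Iff.rfl
  rw [h2, h]
  exact Iff.rfl

theorem lt_nat (x y : ℕ) : Lt ℕ x y ↔ x < y := Iff.rfl

/-- bounded universal quantification -/
noncomputable def ballF {α : Type} (t : LA.Term α) (φ : LA.Formula (α ⊕ Unit)) : LA.Formula α :=
  ((ltA (Term.var (Sum.inr ())) (t.relabel Sum.inl)).imp φ).iAlls Unit

theorem realize_ballF {M : Type} [LA.Structure M] {α : Type} (t : LA.Term α)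
    (φ : LA.Formula (α ⊕ Unit)) (v : α → M) : (ballF t φ).Realize v ↔
      ∀ x : M, Lt M x (t.realize v) → φ.Realize (Sum.elim v fun _ => x) := by
  rw [ballF, Formula.realize_iAlls]
  constructor
  · intro h x hx
    have h1 := h fun _ => x
    rw [Formula.realize_imp, realize_ltA, Term.realize_relabel] at h1
    exact h1 hx
  · intro h w
    rw [Formula.realize_imp, realize_ltA, Term.realize_relabel]
    intro h1
    exact h (w ()) h1

theorem realize_exF {M : Type} [LA.Structure M] {α : Type}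
    (φ : LA.Formula (α ⊕ Unit)) (v : α → M) : (φ.iExs Unit).Realize v ↔
      ∃ x : M, φ.Realize (Sum.elim v fun _ => x) := by
  rw [Formula.realize_iExs]
  constructor
  · rintro ⟨w, hw⟩
    exact ⟨w (), hw⟩
  · rintro ⟨x, hx⟩
    exact ⟨fun _ => x, hx⟩

theorem coe_elim {M : Type} [LA.Structure M] (I : LA.Substructure M) {α : Type} (v : α → I)
    (x : I) : (fun a : α ⊕ Unit => ((Sum.elim v (fun _ => x) a : I) : M)) =
      Sum.elim (fun a => (v a : M)) fun _ => (x : M) := by
  funext a
  cases a <;> rfl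

/-- SGCL. -/
theorem sgcl : SGCL := by
  refine ⟨?_, ?_, ?_, ?_, ?_, ?_, ?_⟩
  · rintro α f g ⟨t, ht⟩ ⟨s, hs⟩
    refine ⟨t.equal s, ?_, fun v => by rw [Formula.realize_equal, ht, hs]⟩
    intro M _ I _ v h
    rw [Formula.realize_equal] at h ⊢
    rw [← term_sub, ← term_sub, h]
  · rintro α f g ⟨t, ht⟩ ⟨s, hs⟩
    refine ⟨ltA t s, ?_, fun v => ?_⟩
    · intro M _ I _ v h
      rw [realize_ltA] at h ⊢
      rw [← term_sub, ← term_sub]
      exact (rel_sub I _ _).1 h
    · rw [realize_ltA, ht, hs]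
      exact Iff.rfl
  · rintro α P Q ⟨φ, hφ, hP⟩ ⟨ψ, hψ, hQ⟩
    refine ⟨φ ⊓ ψ, ?_, fun v => by rw [Formula.realize_inf, hP, hQ]⟩
    intro M _ I hI v h
    rw [Formula.realize_inf] at h ⊢
    exact ⟨hφ M I hI v h.1, hψ M I hI v h.2⟩
  · rintro α P Q ⟨φ, hφ, hP⟩ ⟨ψ, hψ, hQ⟩
    refine ⟨φ ⊔ ψ, ?_, fun v => by rw [Formula.realize_sup, hP, hQ]⟩
    intro M _ I hI v h
    rw [Formula.realize_sup] at h ⊢
    exact h.imp (hφ M I hI v) (hψ M I hI v)
  · rintro α P ⟨φ, hφ, hP⟩
    refine ⟨φ.iExs Unit, ?_, fun v => ?_⟩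
    · intro M _ I hI v h
      rw [realize_exF] at h ⊢
      obtain ⟨x, hx⟩ := h
      refine ⟨(x : M), ?_⟩
      have h1 := hφ M I hI _ hx
      rw [coe_elim] at h1
      exact h1
    · rw [realize_exF]
      exact exists_congr fun x => hP _
  · rintro α f P ⟨t, ht⟩ ⟨φ, hφ, hP⟩
    refine ⟨ballF t φ, ?_, fun v => ?_⟩
    · intro M _ I hI v h
      rw [realize_ballF] at h ⊢
      intro x hx
      rw [← term_sub] at hx
      have hxI : x ∈ I := hI _ (t.realize v : I).2 x hx
      have h1 := hφ M I hI _ (h ⟨x, hxI⟩ ((rel_sub I _ _).2 hx))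
      rw [coe_elim] at h1
      exact h1
    · rw [realize_ballF]
      refine forall_congr' fun x => ?_
      rw [ht, lt_nat]
      exact imp_congr_right fun _ => hP _
  · rintro α β P g ⟨φ, hφ, hP⟩ hg
    choose s hs using hg
    refine ⟨φ.subst s, ?_, fun v => ?_⟩
    · intro M _ I hI v h
      rw [Formula.Realize, BoundedFormula.realize_subst, ← Formula.Realize] at h ⊢
      have h1 := hφ M I hI _ h
      simp only [term_sub] at h1
      exact h1
    · rw [Formula.Realize, BoundedFormula.realize_subst, ← Formula.Realize, hP]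
      simp only [hs]

end Pool.Agent.Helper85.LT
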